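import Pool.Agent.K4H15.BY.Chr

/-!
The `L`-function of the triple product, for characters of any order.
-/

set_option autoImplicit false

namespace Pool.Agent.K4H15.BY

open NumberField IsDedekindDomain Matrix
open scoped Pointwise Kronecker
open Pool.Agent.K4H55.BI (IQ gen gen_span gen_dvd gen_prime gen_na)
open Pool.Agent.K4H55.BD (nv_cases uniq_over pv fin_over low mem_low bad_fin int_mem cjK cjK_cjK)
open Pool.Agent.K4H55.CX (CH efx)
open Pool.Agent.R431.B (FrobSet frob_iff frob_nonempty frob_conj trans_over frob_stab inc inc_inj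
  exists_place cpow_quad)
open Pool.Agent.K4H15.BT (Eig det_eig cM cM_mul cM_one frobM frobM_single quad_fac exists_eig
  frobM_conj quad_sandwich cM_inv cM_inv')
open Pool.Agent.K4H15.BZ

variable {K F : Type} [Field K] [NumberField K] [Field F] [NumberField F] [Algebra K F]
  [IsPrincipalIdealRing (𝓞 K)] {σ : K →+* ℂ} {δ : K}

section main

variable {N : ℕ} {a b n : 𝓞 K} {c : Ideal (𝓞 K) → ℂ} {A : ℕ → ℂ}
  {ρg ρh : (F ≃ₐ[ℚ] F) →* GL (Fin 2) ℂ} {ρ : (F ≃ₐ[ℚ] F) →* GL (Fin 2 × Fin 2) ℂ}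

/-- **The `L`-function of the triple product** -/
theorem an_main' (h : IQ K σ δ) [IsGalois ℚ F] (hcomm : ∀ s t : F ≃ₐ[K] F, s * t = t * s)
    {P : HeightOneSpectrum (𝓞 K) → Prop}
    (hP : ∀ v, P v → 2 * (4 * a ^ 3 + 27 * b ^ 2) ∉ v.asIdeal) (hAR : AR K F P)
    (hNV : ∀ (T : Finset (HeightOneSpectrum (𝓞 K))) (χ : 𝓞 K → ℂ), CH T χ → (∀ v ∈ T, P v) →
      ∃ G : ℂ → ℂ, Differentiable ℂ G ∧ (∀ s : ℂ, 2 < s.re → HasProd (efx n c χ s) (G s)) ∧
        G 1 ≠ 0)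
    {m : ℤ} (hm : 2 * (4 * a ^ 3 + 27 * b ^ 2) = (m : 𝓞 K))
    (hc : ∀ v : HeightOneSpectrum (𝓞 K), 2 * (4 * a ^ 3 + 27 * b ^ 2) ∉ v.asIdeal →
      n ∉ v.asIdeal ∧ c v.asIdeal = (Ideal.absNorm v.asIdeal : ℂ) - pv a b v)
    (hur : ∀ w : HeightOneSpectrum (𝓞 K), 2 * (4 * a ^ 3 + 27 * b ^ 2) ∈ w.asIdeal →
      ∀ p : ℕ, p.Prime → (p : 𝓞 K) ∈ w.asIdeal → (p : 𝓞 K) ∉ w.asIdeal ^ 2)
    (hn : n = (N : 𝓞 K))
    (hA : ∀ p : ℕ, p.Prime → ¬ (p : ℤ) ∣ m → ¬ p ∣ N ∧ ∃ k : ℕ, k ≤ 2 * p ∧ A p = p - k)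
    (hc1 : ∀ p : ℕ, p.Prime → ∀ w : HeightOneSpectrum (𝓞 K), (p : 𝓞 K) ∈ w.asIdeal →
      Ideal.absNorm w.asIdeal = p → c w.asIdeal = A p)
    (hc2 : ∀ p : ℕ, p.Prime → ∀ w : HeightOneSpectrum (𝓞 K), (p : 𝓞 K) ∈ w.asIdeal →
      Ideal.absNorm w.asIdeal = p ^ 2 → c w.asIdeal = A p ^ 2 - (if p ∣ N then 0 else 2 * (p : ℂ)))
    (hg : ∀ s : F ≃ₐ[ℚ] F, ¬ Fx K s → (cM (ρg s)).trace = 0)
    (hρ : ∀ s α, (1 - α • cM (ρ s)).det = kp (cM (ρg s)).trace (cM (ρg s)).det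
      (cM (ρh s)).trace (cM (ρh s)).det α) :
    ∃ L : ℂ → ℂ, MeromorphicOn L Set.univ ∧
      (∀ V : Nat.Primes → HeightOneSpectrum (𝓞 F),
        (∀ p : Nat.Primes, ((p : ℕ) : 𝓞 F) ∈ (V p).asIdeal) → ∀ s : ℂ, 2 < s.re →
        HasProd (fun p : Nat.Primes => eulQ A N ρ (V p) s p) (L s)) ∧
      AnalyticAt ℂ L 1 ∧ L 1 ≠ 0 := by
  classical
  obtain ⟨b1, χ, hb⟩ := exists_eig' hcomm (ρg.comp (inc K F))
  obtain ⟨b2, μ, hb'⟩ := exists_eig' hcomm (ρh.comp (inc K F))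
  have hfin : Finite ((F ≃ₐ[K] F) →* ℂ) := fin_char
  choose T X hCH hTP hX using hAR
  let l : Fin 2 → HeightOneSpectrum (𝓞 K) → ℂ := fun i w => X (χ 0 * μ i) (gen w)
  have hl : ∀ i w, ‖l i w‖ = 1 ∨ l i w = 0 := fun i w => CH_norm (hCH _) _
  -- the exceptional primes
  let S0 : Set Nat.Primes := {p | (∃ w : HeightOneSpectrum (𝓞 K), ((p : ℕ) : 𝓞 K) ∈ w.asIdeal ∧
    ((p : ℕ) : 𝓞 K) ∈ w.asIdeal ^ 2) ∨ ∃ ψ, ∃ w : HeightOneSpectrum (𝓞 K),
      ((p : ℕ) : 𝓞 K) ∈ w.asIdeal ∧ w ∈ T ψ}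
  have hS0 : S0.Finite := by
    have h1 : ((fun p : Nat.Primes => (p : ℕ)) ⁻¹' ({p : ℕ | p.Prime ∧
        ∃ w : HeightOneSpectrum (𝓞 K), (p : 𝓞 K) ∈ w.asIdeal ∧ (p : 𝓞 K) ∈ w.asIdeal ^ 2} ∪
        ⋃ ψ, ⋃ w ∈ T ψ, {p : ℕ | p.Prime ∧ (p : 𝓞 K) ∈ w.asIdeal})).Finite := by
      refine Set.Finite.preimage (Set.injOn_of_injective fun a b h => Subtype.ext h) ?_
      refine (ram_fin h).union (Set.finite_iUnion fun ψ => ?_)
      refine (T ψ).finite_toSet.biUnion fun w _ => ?_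
      refine Set.Subsingleton.finite ?_
      rintro p ⟨hp, hpw⟩ q ⟨hq, hqw⟩
      exact uniq_over hp hq hpw hqw
    refine h1.subset ?_
    rintro p (⟨w, h2, h3⟩ | ⟨ψ, w, h2, h3⟩)
    · exact Or.inl ⟨p.2, w, h2, h3⟩
    · exact Or.inr (Set.mem_iUnion.2 ⟨ψ, Set.mem_iUnion₂.2 ⟨w, h3, p.2, h2⟩⟩)
  let S : Finset Nat.Primes := hS0.toFinset
  have hS : ∀ p, p ∈ S ↔ p ∈ S0 := fun p => Set.Finite.mem_toFinset _
  have hgood : ∀ p ∈ S, ¬ ((p : ℕ) : ℤ) ∣ m := by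
    intro p hp hpm
    obtain ⟨w, hw1, hw2⟩ : ∃ w : HeightOneSpectrum (𝓞 K), ((p : ℕ) : 𝓞 K) ∈ w.asIdeal ∧
        2 * (4 * a ^ 3 + 27 * b ^ 2) ∉ w.asIdeal := by
      rcases (hS p).1 hp with ⟨w, h1, h2⟩ | ⟨ψ, w, h1, h2⟩
      · exact ⟨w, h1, fun h3 => hur w h3 p p.2 h1 h2⟩
      · exact ⟨w, h1, hP w (hTP ψ w h2)⟩
    apply hw2
    rw [hm]
    exact (int_mem p.2 hw1).2 hpm
  have hgw : ∀ p ∈ S, ∀ w ∈ Wp K p, 2 * (4 * a ^ 3 + 27 * b ^ 2) ∉ w.asIdeal := by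
    intro p hp w hw h1
    rw [hm] at h1
    exact hgood p hp ((int_mem p.2 ((mem_Wp p.2).1 hw)).1 h1)
  have hG : ∀ i : Fin 2, ∃ G : ℂ → ℂ, Differentiable ℂ G ∧ (∀ s : ℂ, 2 < s.re →
      HasProd (fun w => (Pg n c (l i w) w s)⁻¹) (G s)) ∧ G 1 ≠ 0 := by
    intro i
    obtain ⟨G, h1, h2, h3⟩ := hNV (T (χ 0 * μ i)) (X (χ 0 * μ i)) (hCH _) (hTP _)
    refine ⟨G, h1, fun s hs => ?_, h3⟩
    refine (h2 s hs).congr_fun fun w => ?_
    exact (efx_eq n c (X (χ 0 * μ i)) s w).symm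
  choose G hG1 hG2 hG3 using hG
  choose V₀ hV₀ using fun p : Nat.Primes => exists_place (K := F) p.2
  let R : Nat.Primes → ℂ → ℂ := fun p s => (dQ A N ρ (V₀ p) p s)⁻¹ *
    ∏ w ∈ Wp K p, ∏ i, Pg n c (l i w) w s
  have hPd : ∀ p : Nat.Primes, Differentiable ℂ (fun s => ∏ w ∈ Wp K p, ∏ i, Pg n c (l i w) w s) :=
    fun p => Differentiable.fun_finsetProd fun w _ => Differentiable.fun_finsetProd fun i _ =>
      Pg_diff n c (l i w) w
  have hGd : Differentiable ℂ (fun s => ∏ i, G i s) :=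
    Differentiable.fun_finsetProd fun i _ => hG1 i
  have hdQ : ∀ p ∈ S, dQ A N ρ (V₀ p) p 1 ≠ 0 := by
    intro p hp
    obtain ⟨hN, k, hk, hAp⟩ := hA p p.2 (hgood p hp)
    unfold dQ
    rw [if_neg hN, hAp, Complex.cpow_neg_one, show (1 - 2 * 1 : ℂ) = -1 by norm_num,
      Complex.cpow_neg_one]
    exact det_ne' p.2 (hV₀ p) hk
  refine ⟨fun s => (∏ p ∈ S, R p s) * ∏ i, G i s, ?_, ?_, ?_, ?_⟩
  · intro z _
    refine MeromorphicAt.mul ?_ (hGd.analyticAt z).meromorphicAt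
    refine MeromorphicAt.fun_prod fun p _ => ?_
    exact ((dQ_diff A N (V₀ p) p.2).analyticAt z).meromorphicAt.inv.mul
      ((hPd p).analyticAt z).meromorphicAt
  · intro V hV s hs
    have h1 : HasProd (fun w => ∏ i, (Pg n c (l i w) w s)⁻¹) (∏ i, G i s) :=
      hasProd_prod fun i _ => hG2 i s hs
    have h2 := hasProd_fib h h1
    have h4 : HasProd (fun p : Nat.Primes => if p ∈ S then R p s else 1) (∏ p ∈ S, R p s) := by
      have h6 := hasProd_prod_of_ne_finset_one (L := .unconditional _) (s := S)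
        (f := fun p : Nat.Primes => if p ∈ S then R p s else 1) (fun p hp => if_neg hp)
      rw [Finset.prod_congr rfl (fun p hp => if_pos hp)] at h6
      exact h6
    refine (h4.mul h2).congr_fun fun p => ?_
    have e : ∏ w ∈ Wp K p, ∏ i, (Pg n c (l i w) w s)⁻¹ =
        (∏ w ∈ Wp K p, ∏ i, Pg n c (l i w) w s)⁻¹ := by
      rw [← Finset.prod_inv_distrib]
      exact Finset.prod_congr rfl fun w _ => Finset.prod_inv_distrib _
    by_cases hp : p ∈ S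
    · rw [if_pos hp, e, mul_assoc, mul_inv_cancel₀, mul_one]
      · exact eulQ_place A N ρ p.2 (hV₀ p) (hV p) s
      · refine Finset.prod_ne_zero_iff.2 fun w hw => Finset.prod_ne_zero_iff.2 fun i _ => ?_
        obtain ⟨h5, h6⟩ := hc w (hgw p hp w hw)
        exact Pg_ne (hl i w) h5 h6 hs
    · rw [if_neg hp, one_mul, e]
      have hp0 : p ∉ S0 := fun h5 => hp ((hS p).2 h5)
      have hr : ∀ w : HeightOneSpectrum (𝓞 K), ((p : ℕ) : 𝓞 K) ∈ w.asIdeal →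
          ((p : ℕ) : 𝓞 K) ∉ w.asIdeal ^ 2 := fun w h5 h6 => hp0 (Or.inl ⟨w, h5, h6⟩)
      have hTn : ∀ v : HeightOneSpectrum (𝓞 F), ((p : ℕ) : 𝓞 F) ∈ v.asIdeal → ∀ ψ,
          low (K := K) v ∉ T ψ := fun v hv ψ h5 => hp0 (Or.inr ⟨ψ, _, mem_low_nat.2 hv, h5⟩)
      refine eul_unram' h hg hρ hb hb' l p.2 (hV p) hr (fun v hv t ht => ?_) (fun v hv t ht i => ?_)
        hn (hc1 p p.2) (hc2 p p.2) s
      · exact inert_triv h p.2 hv (hr _ (mem_low_nat.2 hv)) hcomm hX (hTn v hv) ht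
      · exact (hX (χ 0 * μ i) v (hTn v hv _) t ht).symm
  · refine AnalyticAt.mul ?_ (hGd.analyticAt 1)
    refine Finset.analyticAt_fun_prod _ fun p hp => ?_
    exact (((dQ_diff A N (V₀ p) p.2).analyticAt 1).inv (hdQ p hp)).mul ((hPd p).analyticAt 1)
  · refine mul_ne_zero (Finset.prod_ne_zero_iff.2 fun p hp => mul_ne_zero
      (inv_ne_zero (hdQ p hp)) ?_) (Finset.prod_ne_zero_iff.2 fun i _ => hG3 i)
    refine Finset.prod_ne_zero_iff.2 fun w hw => Finset.prod_ne_zero_iff.2 fun i _ => ?_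
    obtain ⟨h5, h6⟩ := hc w (hgw p hp w hw)
    exact Pg_ne_one (hl i w) h5 h6

end main

omit [IsPrincipalIdealRing (𝓞 K)] in
/-- the trace of an irreducible representation outside of the Galois group of `K` -/
theorem trace_irr' (h : IQ K σ δ) (hcomm : ∀ s t : F ≃ₐ[K] F, s * t = t * s)
    {ρ : (F ≃ₐ[ℚ] F) →* GL (Fin 2) ℂ}
    (hirr : Irr ρ) (s : F ≃ₐ[ℚ] F) (hs : ¬ Fx K s) : (cM (ρ s)).trace = 0 := by
  classical
  have hsc : Cx h s := (fix_or h s).resolve_left hs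
  obtain ⟨b, χ, hb⟩ := exists_eig' hcomm (ρ.comp (inc K F))
  have hb1 : ∀ (t : F ≃ₐ[K] F) i, (cM (ρ (inc K F t))).mulVec (b i) = χ i t • b i := hb
  set X := cM (ρ s) with hX
  -- a common eigenvector
  have hcom : ∀ x : Fin 2 → ℂ, x ≠ 0 →
      (∀ t : F ≃ₐ[K] F, ∃ l : ℂ, (cM (ρ (inc K F t))).mulVec x = l • x) →
      ∀ l : ℂ, X.mulVec x ≠ l • x := by
    intro x hx h1 l hl
    apply hirr x hx
    intro g
    rcases fix_or (K := K) h g with h2 | h2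
    · obtain ⟨t, rfl⟩ := range_fix h2
      exact h1 t
    · obtain ⟨t, ht⟩ := range_fix (Cx.mul h (Cx.inv h hsc) h2)
      obtain ⟨l', hl'⟩ := h1 t
      have e : g = s * inc K F t := by rw [ht]; group
      refine ⟨l' * l, ?_⟩
      show (cM (ρ g)).mulVec x = _
      rw [e, map_mul, cM_mul, ← Matrix.mulVec_mulVec, hl', Matrix.mulVec_smul, ← hX, hl, smul_smul]
  -- the coordinates
  have hexp : ∀ x : Fin 2 → ℂ, x = b.repr x 0 • b 0 + b.repr x 1 • b 1 := by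
    intro x
    conv_lhs => rw [← b.sum_repr x, Fin.sum_univ_two]
  have key : ∀ (i : Fin 2) (t : F ≃ₐ[K] F), ∃ l : ℂ, ∀ j,
      (χ j t - l) * b.repr (X.mulVec (b i)) j = 0 := by
    intro i t
    obtain ⟨t', ht'⟩ : ∃ t' : F ≃ₐ[K] F, inc K F t' = s⁻¹ * inc K F t * s := by
      apply range_fix
      rw [mul_assoc]
      exact Cx.mul h (Cx.inv h hsc) (Fx.mul_cx h (fx_inc t) hsc)
    have h1 : (cM (ρ (inc K F t))).mulVec (X.mulVec (b i)) = χ i t' • X.mulVec (b i) := by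
      rw [Matrix.mulVec_mulVec, hX, ← cM_mul, ← map_mul]
      have e : inc K F t * s = s * inc K F t' := by rw [ht']; group
      rw [e, map_mul, cM_mul, ← Matrix.mulVec_mulVec, hb1, Matrix.mulVec_smul]
    refine ⟨χ i t', fun j => ?_⟩
    set z := X.mulVec (b i) with hz
    have h2 : (cM (ρ (inc K F t))).mulVec z =
        (b.repr z 0 * χ 0 t) • b 0 + (b.repr z 1 * χ 1 t) • b 1 := by
      conv_lhs => rw [hexp z, Matrix.mulVec_add, Matrix.mulVec_smul, Matrix.mulVec_smul, hb1, hb1,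
        smul_smul, smul_smul]
    rw [h1] at h2
    have h3 := congrArg (fun w => b.repr w j) h2
    simp only [map_smul, map_add, Finsupp.smul_apply, Finsupp.add_apply, smul_eq_mul,
      Module.Basis.repr_self] at h3
    fin_cases j
    · simp at h3
      show (χ 0 t - χ i t') * b.repr z 0 = 0
      linear_combination -h3
    · simp at h3
      show (χ 1 t - χ i t') * b.repr z 1 = 0
      linear_combination -h3
  have hscal : ¬ ∀ t : F ≃ₐ[K] F, χ 0 t = χ 1 t := by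
    intro h1
    obtain ⟨l, hl⟩ := Module.End.exists_eigenvalue (Matrix.toLin' X)
    obtain ⟨x, hx⟩ := hl.exists_hasEigenvector
    have h2 : X.mulVec x = l • x := by
      have := hx.apply_eq_smul
      rwa [Matrix.toLin'_apply] at this
    refine hcom x hx.2 (fun t => ⟨χ 0 t, ?_⟩) l h2
    refine eig_ext (b := b) (fun i => ?_) x
    show (cM (ρ (inc K F t))).mulVec (b i) = χ 0 t • b i
    rw [hb1]
    fin_cases i
    · rfl
    · simp only [Fin.mk_one, h1 t]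
  have hdiag : ∀ i, b.repr (X.mulVec (b i)) i = 0 := by
    intro i
    by_contra hne
    -- the other index
    by_cases hj : ∀ j, j ≠ i → b.repr (X.mulVec (b i)) j = 0
    · refine hcom (b i) (b.ne_zero i) (fun t => ⟨χ i t, hb1 t i⟩)
        (b.repr (X.mulVec (b i)) i) ?_
      conv_lhs => rw [hexp (X.mulVec (b i))]
      fin_cases i
      · have h1 := hj 1 (by decide)
        simp only [Fin.zero_eta, Fin.isValue] at h1 ⊢
        rw [h1, zero_smul, add_zero]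
      · have h1 := hj 0 (by decide)
        simp only [Fin.mk_one, Fin.isValue] at h1 ⊢
        rw [h1, zero_smul, zero_add]
    · push Not at hj
      obtain ⟨j, hji, hj0⟩ := hj
      apply hscal
      intro t
      obtain ⟨l, hl⟩ := key i t
      have e1 := (mul_eq_zero.1 (hl i)).resolve_right hne
      have e2 := (mul_eq_zero.1 (hl j)).resolve_right hj0
      have e3 : χ i t = χ j t := by linear_combination e1 - e2
      fin_cases i <;> fin_cases j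
      · exact absurd rfl hji
      · exact e3
      · exact e3.symm
      · exact absurd rfl hji
  have h1 : X.trace = (LinearMap.toMatrix b b (Matrix.toLin' X)).trace := by
    rw [← LinearMap.trace_eq_matrix_trace ℂ b (Matrix.toLin' X),
      LinearMap.trace_eq_matrix_trace ℂ (Pi.basisFun ℂ (Fin 2)) (Matrix.toLin' X)]
    congr 1
    simp [LinearMap.toMatrix_eq_toMatrix']
  rw [h1, Matrix.trace_fin_two, LinearMap.toMatrix_apply, LinearMap.toMatrix_apply,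
    Matrix.toLin'_apply, Matrix.toLin'_apply, hdiag, hdiag, add_zero]

end Pool.Agent.K4H15.BY
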