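import Pool.Agent.K4H15.BY.Fac
import Pool.Agent.K4H55.CX.AbL

/-!
The reciprocity law for characters, and its consequences.
-/

set_option autoImplicit false

namespace Pool.Agent.K4H15.BY

open NumberField IsDedekindDomain Matrix
open scoped Pointwise Kronecker
open Pool.Agent.K4H55.BI (IQ gen gen_span gen_dvd gen_prime gen_na)
open Pool.Agent.K4H55.BD (nv_cases uniq_over pv fin_over low mem_low bad_fin)
open Pool.Agent.K4H55.CX (CH efx)
open Pool.Agent.R431.B (FrobSet frob_iff frob_nonempty frob_conj trans_over frob_stab inc inc_inj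
  exists_place cpow_quad)
open Pool.Agent.K4H15.BT (Eig det_eig cM cM_mul cM_one frobM frobM_single quad_fac exists_eig
  frobM_conj quad_sandwich cM_inv cM_inv')
open Pool.Agent.K4H15.BZ

section grp

variable {G : Type} [Group G] [Finite G]

lemma fin_char : Finite (G →* ℂ) := by
  classical
  have hn : 0 < Nat.card G := Nat.card_pos
  have h1 : {z : ℂ | z ^ Nat.card G = 1}.Finite := by
    refine (Polynomial.nthRootsFinset (Nat.card G) (1 : ℂ)).finite_toSet.subset fun z hz => ?_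
    rw [Finset.mem_coe, Polynomial.mem_nthRootsFinset hn]
    exact hz
  have : Finite {z : ℂ // z ^ Nat.card G = 1} := h1
  refine Finite.of_injective (β := G → {z : ℂ // z ^ Nat.card G = 1})
    (fun ψ g => ⟨ψ g, by rw [← map_pow, pow_card_eq_one', map_one]⟩) fun ψ ψ' he => ?_
  apply MonoidHom.ext
  intro g
  exact congrArg Subtype.val (congrFun he g)

lemma char_sep (hc : ∀ s t : G, s * t = t * s) {t : G} (h : ∀ ψ : G →* ℂ, ψ t = 1) : t = 1 := by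
  by_contra hne
  let I : CommGroup G := { (inferInstance : Group G) with mul_comm := hc }
  have hne0 : NeZero (Monoid.exponent G) := ⟨Monoid.exponent_ne_zero_of_finite⟩
  obtain ⟨φ, hφ⟩ := CommGroup.exists_apply_ne_one_of_hasEnoughRootsOfUnity G ℂ hne
  apply hφ
  have h1 := h ((Units.coeHom ℂ).comp φ)
  exact Units.ext h1

end grp

variable {K F : Type} [Field K] [NumberField K] [Field F] [NumberField F] [Algebra K F]
  [IsPrincipalIdealRing (𝓞 K)] {σ : K →+* ℂ} {δ : K}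

/-- The reciprocity law for the characters of the Galois group of `F/K`. -/
def AR (K F : Type) [Field K] [NumberField K] [Field F] [NumberField F] [Algebra K F]
    [IsPrincipalIdealRing (𝓞 K)] (P : HeightOneSpectrum (𝓞 K) → Prop) : Prop :=
  ∀ ψ : (F ≃ₐ[K] F) →* ℂ, ∃ (T : Finset (HeightOneSpectrum (𝓞 K))) (χ : 𝓞 K → ℂ), CH T χ ∧
    (∀ v ∈ T, P v) ∧ ∀ v : HeightOneSpectrum (𝓞 F), low (K := K) v ∉ T → ∀ t : F ≃ₐ[K] F,
      (∀ x : 𝓞 F, t • x - x ^ Ideal.absNorm (low (K := K) v).asIdeal ∈ v.asIdeal) →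
      ψ t = χ (gen (low (K := K) v))

/-- the Frobenius automorphisms of `F/K` -/
lemma exists_frobK (h : IQ K σ δ) {p : ℕ} (hp : p.Prime) [IsGalois ℚ F]
    {v : HeightOneSpectrum (𝓞 F)} (hpv : (p : 𝓞 F) ∈ v.asIdeal)
    (hr : (p : 𝓞 K) ∉ (low (K := K) v).asIdeal ^ 2) :
    ∃ t : F ≃ₐ[K] F, ∀ x : 𝓞 F, t • x - x ^ Ideal.absNorm (low (K := K) v).asIdeal ∈ v.asIdeal := by
  obtain ⟨f, hf⟩ := frob_nonempty v
  have hpw : (p : 𝓞 K) ∈ (low (K := K) v).asIdeal := mem_low_nat.2 hpv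
  obtain ⟨p', hp', hpw', hN⟩ := nv_cases h (low (K := K) v)
  obtain rfl := uniq_over hp' hp hpw' hpw
  rcases hN with hN | hN
  · obtain ⟨t, ht⟩ := range_fix (frob_split h hp hpv hr hN hf)
    refine ⟨t, fun x => ?_⟩
    rw [hN]
    have h1 := (frob_iff hp hpv f).1 hf x
    rw [← ht] at h1
    exact h1
  · have hcx := frob_inert h hp hpv hN hf
    obtain ⟨t, ht⟩ := range_fix (Cx.mul h hcx hcx)
    refine ⟨t, fun x => ?_⟩
    rw [hN]
    have h1 := frob_sq hp hpv hf x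
    rw [← ht] at h1
    exact h1

/-- inertia at the unramified places -/
lemma inert_triv (h : IQ K σ δ) {p : ℕ} (hp : p.Prime) [IsGalois ℚ F]
    {v : HeightOneSpectrum (𝓞 F)} (hpv : (p : 𝓞 F) ∈ v.asIdeal)
    (hr : (p : 𝓞 K) ∉ (low (K := K) v).asIdeal ^ 2) (hc : ∀ s t : F ≃ₐ[K] F, s * t = t * s)
    {T : ((F ≃ₐ[K] F) →* ℂ) → Finset (HeightOneSpectrum (𝓞 K))}
    {X : ((F ≃ₐ[K] F) →* ℂ) → 𝓞 K → ℂ}
    (hX : ∀ ψ, ∀ v : HeightOneSpectrum (𝓞 F), low (K := K) v ∉ T ψ → ∀ t : F ≃ₐ[K] F,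
      (∀ x : 𝓞 F, t • x - x ^ Ideal.absNorm (low (K := K) v).asIdeal ∈ v.asIdeal) →
      ψ t = X ψ (gen (low (K := K) v)))
    (hT : ∀ ψ, low (K := K) v ∉ T ψ) {t : F ≃ₐ[K] F}
    (ht : ∀ x : 𝓞 F, t • x - x ∈ v.asIdeal) : t = 1 := by
  obtain ⟨t0, ht0⟩ := exists_frobK h hp hpv hr
  apply char_sep hc
  intro ψ
  have h1 := hX ψ v (hT ψ) t0 ht0
  have h2 := hX ψ v (hT ψ) (t * t0) fun x => by
    have h3 := v.asIdeal.add_mem (ht (t0 • x)) (ht0 x)
    rwa [sub_add_sub_cancel, ← mul_smul] at h3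
  rw [← h1, map_mul] at h2
  have h3 : ψ t0 ≠ 0 := by
    intro h4
    have h5 : ψ t0 * ψ t0⁻¹ = 1 := by rw [← map_mul, mul_inv_cancel, map_one]
    rw [h4, zero_mul] at h5
    exact zero_ne_one h5
  exact mul_right_cancel₀ h3 (by rw [h2, one_mul])

lemma efx_eq (n : 𝓞 K) (c : Ideal (𝓞 K) → ℂ) (χ : 𝓞 K → ℂ) (s : ℂ)
    (v : HeightOneSpectrum (𝓞 K)) : efx n c χ s v = (Pg n c (χ (gen v)) v s)⁻¹ := by
  classical
  unfold efx Pg
  congr 1
  by_cases h1 : n ∈ v.asIdeal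
  · rw [if_pos h1, if_pos h1]
    ring
  · rw [if_neg h1, if_neg h1]
    ring

lemma CH_norm {T : Finset (HeightOneSpectrum (𝓞 K))} {χ : 𝓞 K → ℂ} (h : CH T χ) (x : 𝓞 K) :
    ‖χ x‖ = 1 ∨ χ x = 0 := by
  by_cases h0 : χ x = 0
  · exact Or.inr h0
  · obtain ⟨k, hk⟩ := h.pow
    exact Or.inl (Complex.norm_eq_one_of_pow_eq_one (hk x h0) (by positivity))

section ram

variable {κ : Type} [Fintype κ] [DecidableEq κ] {ρ : (F ≃ₐ[ℚ] F) →* GL κ ℂ} {p : ℕ}
  {v : HeightOneSpectrum (𝓞 F)}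

/-- the nonzero eigenvalues of the mean of the Frobenius automorphisms -/
lemma frobM_eig' (hp : p.Prime) (hpv : (p : 𝓞 F) ∈ v.asIdeal) [IsGalois ℚ F]
    {l : ℂ} (hl : l ≠ 0) {x : κ → ℂ} (hx : x ≠ 0)
    (h : (frobM ρ v).mulVec x = l • x) : ‖l‖ = 1 := by
  classical
  obtain ⟨s, hs⟩ := frob_nonempty v
  have h1 : ∀ j : F ≃ₐ[ℚ] F, (∀ x : 𝓞 F, j • x - x ∈ v.asIdeal) →
      (cM (ρ j)).mulVec x = x := by
    intro j hj
    have h2 := congrArg (fun M : Matrix κ κ ℂ => M.mulVec x) (frobM_inertia (ρ := ρ) hp hpv hj)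
    simp only [← Matrix.mulVec_mulVec, h, Matrix.mulVec_smul] at h2
    have h3 : l • ((cM (ρ j)).mulVec x - x) = 0 := by rw [smul_sub, h2, sub_self]
    exact sub_eq_zero.1 ((smul_eq_zero.1 h3).resolve_left hl)
  have h2 : ∀ τ ∈ FrobSet v, (cM (ρ τ)).mulVec x = (cM (ρ s)).mulVec x := by
    intro τ hτ
    have h3 : (cM (ρ (s⁻¹ * τ))).mulVec x = x := by
      apply h1
      intro z
      have h5 := v.asIdeal.sub_mem ((frob_iff hp hpv τ).1 hτ z) ((frob_iff hp hpv s).1 hs z)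
      rw [sub_sub_sub_cancel_right] at h5
      have h6 : s⁻¹ • (τ • z - s • z) ∈ v.asIdeal := by
        have h7 : s • v.asIdeal = v.asIdeal := frob_stab hs
        rw [← Ideal.mem_pointwise_smul_iff_inv_smul_mem, h7]
        exact h5
      rwa [smul_sub, inv_smul_smul, ← mul_smul] at h6
    have e : τ = s * (s⁻¹ * τ) := by group
    rw [e, map_mul, cM_mul, ← Matrix.mulVec_mulVec, h3]
  have h3 : (frobM ρ v).mulVec x = (cM (ρ s)).mulVec x := by
    let _ : Fintype (FrobSet v) := Fintype.ofFinite _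
    have hne : Nonempty (FrobSet v) := ⟨⟨s, hs⟩⟩
    unfold frobM
    rw [finsum_eq_sum_of_fintype, Matrix.smul_mulVec, Matrix.sum_mulVec,
      Finset.sum_congr rfl fun τ _ => h2 τ.1 τ.2, Finset.sum_const, Finset.card_univ,
      ← Nat.card_eq_fintype_card, ← Nat.cast_smul_eq_nsmul ℂ, smul_smul, inv_mul_cancel₀, one_smul]
    exact_mod_cast Nat.card_pos.ne'
  rw [h] at h3
  have h5 : Eig x (cM (ρ s)) l := h3.symm
  have h6 : ∀ k : ℕ, cM (ρ s) ^ k = cM (ρ (s ^ k)) := by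
    intro k
    induction k with
    | zero => rw [pow_zero, pow_zero, map_one, cM_one]
    | succ k ih => rw [pow_succ, pow_succ, map_mul, cM_mul, ih]
  have h7 := h5.pow (Nat.card (F ≃ₐ[ℚ] F))
  rw [h6, pow_card_eq_one', map_one, cM_one] at h7
  unfold Eig at h7
  rw [Matrix.one_mulVec] at h7
  have h8 : (1 - l ^ Nat.card (F ≃ₐ[ℚ] F)) • x = 0 := by rw [sub_smul, one_smul, ← h7, sub_self]
  have h9 := (smul_eq_zero.1 h8).resolve_right hx
  exact Complex.norm_eq_one_of_pow_eq_one (n := Nat.card (F ≃ₐ[ℚ] F)) (by linear_combination -h9)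
    Nat.card_pos.ne'

/-- the Euler factor is finite at the centre -/
theorem det_ne' (hp : p.Prime) (hpv : (p : 𝓞 F) ∈ v.asIdeal) [IsGalois ℚ F]
    {m : ℕ} (hm : m ≤ 2 * p) :
    (1 - (((p : ℂ) - m) * (p : ℂ)⁻¹) • frobM ρ v + ((p : ℂ)⁻¹) • frobM ρ v ^ 2).det ≠ 0 := by
  intro h0
  have hp0 : (p : ℂ) ≠ 0 := by exact_mod_cast hp.ne_zero
  obtain ⟨α, β, hα, hβ⟩ := exists_ab (((p : ℂ) - m) * (p : ℂ)⁻¹) ((p : ℂ)⁻¹)
  have hβ0 : α * β ≠ 0 := by rw [hβ]; exact inv_ne_zero hp0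
  have key : ∀ γ : ℂ, γ ≠ 0 → (1 - γ • frobM ρ v).det = 0 → (1 - γ⁻¹ * α) * (1 - γ⁻¹ * β) ≠ 0 := by
    intro γ hγ hdet
    obtain ⟨x, hx, hx0⟩ := Matrix.exists_mulVec_eq_zero_iff.2 hdet
    rw [Matrix.sub_mulVec, Matrix.one_mulVec, Matrix.smul_mulVec, sub_eq_zero] at hx0
    have h1 : (frobM ρ v).mulVec x = γ⁻¹ • x := by
      have h2 := congrArg (fun z => γ⁻¹ • z) hx0
      simp only [smul_smul, inv_mul_cancel₀ hγ, one_smul] at h2
      exact h2.symm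
    have h2 := frobM_eig' hp hpv (inv_ne_zero hγ) hx h1
    have h3 := P_ne' hp.two_le hm (Or.inl h2)
    have e : (1 - γ⁻¹ * α) * (1 - γ⁻¹ * β) = 1 - γ⁻¹ * (((p : ℂ) - m) * (p : ℂ)⁻¹) +
        γ⁻¹ ^ 2 * (p : ℂ)⁻¹ := by
      rw [← hα, ← hβ]
      ring
    rw [e]
    exact h3
  rw [← hα, ← hβ, quad_fac] at h0
  rcases mul_eq_zero.1 h0 with h1 | h1
  · have h2 := left_ne_zero_of_mul hβ0
    apply key α h2 h1
    rw [inv_mul_cancel₀ h2, sub_self, zero_mul]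
  · have h2 := right_ne_zero_of_mul hβ0
    apply key β h2 h1
    rw [inv_mul_cancel₀ h2, sub_self, mul_zero]

end ram

end Pool.Agent.K4H15.BY
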