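import Pool.Agent.K4H15.BZ.Irr

/-!
Euler factors of twists by characters of any order.
-/

set_option autoImplicit false

namespace Pool.Agent.K4H15.BY

open NumberField IsDedekindDomain Matrix
open scoped Pointwise Kronecker
open Pool.Agent.K4H55.BI (IQ sym gen gen_span gen_dvd gen_prime gen_na)
open Pool.Agent.K4H55.BD (tau tv tau_tau tau_int mul_tau mem_tv res_int int_mem norm_gen nv_cases
  uniq_over two_notMem pv pv_twist fin_over norm_eq char_ne_two cjK coe_tau cjK_cjK low mem_low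
  mem_tv_nat bad_fin)
open Pool.Agent.R431.B (FrobSet frob_iff frob_nonempty frob_conj trans_over frob_stab inc inc_inj
  exists_place cpow_quad)
open Pool.Agent.K4H15.BT (Eig det_eig cM cM_mul cM_one frobM frobM_single quad_fac exists_eig
  frobM_conj quad_sandwich cM_inv cM_inv')
open Pool.Agent.K4H15.BZ

variable {K F : Type} [Field K] [NumberField K] [Field F] [NumberField F] [Algebra K F]
  {σ : K →+* ℂ} {δ : K}

/-- the quadratic polynomial on the unit circle -/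
lemma P_ne' {q : ℕ} (hq : 2 ≤ q) {m : ℕ} (hm : m ≤ 2 * q) {l : ℂ} (hl : ‖l‖ = 1 ∨ l = 0) :
    1 - l * (((q : ℂ) - m) * (q : ℂ)⁻¹) + l ^ 2 * (q : ℂ)⁻¹ ≠ 0 := by
  rcases hl with hl | hl
  · intro h0
    have hq0 : (q : ℂ) ≠ 0 := by
      have : q ≠ 0 := by omega
      exact_mod_cast this
    have h1 : (q : ℂ) - l * ((q : ℂ) - m) + l ^ 2 = 0 := by
      have h2 : (q : ℂ) * (1 - l * (((q : ℂ) - m) * (q : ℂ)⁻¹) + l ^ 2 * (q : ℂ)⁻¹) =
          (q : ℂ) - l * ((q : ℂ) - m) + l ^ 2 := by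
        field_simp
      rw [← h2, h0, mul_zero]
    have hc : l * (starRingEnd ℂ) l = 1 := by
      rw [Complex.mul_conj, Complex.normSq_eq_norm_sq, hl]
      norm_num
    -- `q conj l + l = q - m`
    have h2 : (q : ℂ) * (starRingEnd ℂ) l + l = (q : ℂ) - m := by
      have h3 := congrArg (fun z => (starRingEnd ℂ) l * z) h1
      simp only [mul_zero] at h3
      linear_combination h3 + ((q : ℂ) - m - l) * hc
    have hqr : (2 : ℝ) ≤ q := by exact_mod_cast hq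
    have him := congrArg Complex.im h2
    simp only [Complex.add_im, Complex.mul_im, Complex.natCast_re, Complex.natCast_im,
      Complex.conj_im, Complex.conj_re, zero_mul, add_zero, Complex.sub_im, sub_self] at him
    have h3 : l.im = 0 := by
      have h4 : ((q : ℝ) - 1) * l.im = 0 := by linear_combination -him
      rcases mul_eq_zero.1 h4 with h5 | h5
      · linarith
      · exact h5
    have h4 : l = (l.re : ℂ) := Complex.ext rfl (by simpa using h3)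
    have h5 : l.re ^ 2 = 1 := by
      have h6 : ‖l‖ ^ 2 = 1 := by rw [hl]; norm_num
      rw [← Complex.normSq_eq_norm_sq, Complex.normSq_apply, h3] at h6
      linear_combination h6
    have h6 : l ^ 4 = 1 := by
      rw [h4]
      have : l.re ^ 4 = 1 := by
        calc l.re ^ 4 = (l.re ^ 2) ^ 2 := by ring
          _ = 1 := by rw [h5]; norm_num
      exact_mod_cast this
    exact P_ne hq hm (Or.inl h6) h0
  · exact P_ne hq hm (Or.inr hl)

/-- the inverse of the Euler factor -/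
noncomputable def Pg (n : 𝓞 K) (c : Ideal (𝓞 K) → ℂ) (l : ℂ) (w : HeightOneSpectrum (𝓞 K))
    (s : ℂ) : ℂ :=
  1 - l * (c w.asIdeal * (Ideal.absNorm w.asIdeal : ℂ) ^ (-s)) +
    l ^ 2 * (open Classical in if n ∈ w.asIdeal then 0 else
      (Ideal.absNorm w.asIdeal : ℂ) ^ (1 - 2 * s))

lemma Pg_diff (n : 𝓞 K) (c : Ideal (𝓞 K) → ℂ) (l : ℂ) (w : HeightOneSpectrum (𝓞 K)) :
    Differentiable ℂ (Pg n c l w) := by
  classical
  have hq0 : ((Ideal.absNorm w.asIdeal : ℕ) : ℂ) ≠ 0 := by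
    have := two_le_norm w
    have h1 : Ideal.absNorm w.asIdeal ≠ 0 := by omega
    exact_mod_cast h1
  have h1 : Differentiable ℂ (fun s : ℂ => ((Ideal.absNorm w.asIdeal : ℕ) : ℂ) ^ (-s)) := by
    intro z
    exact (differentiableAt_id.neg).const_cpow (Or.inl hq0)
  have h2 : Differentiable ℂ (fun s : ℂ => ((Ideal.absNorm w.asIdeal : ℕ) : ℂ) ^ (1 - 2 * s)) := by
    intro z
    exact ((differentiableAt_const _).sub ((differentiableAt_const _).mul differentiableAt_id)).const_cpow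
      (Or.inl hq0)
  unfold Pg
  by_cases h3 : n ∈ w.asIdeal
  · simp only [if_pos h3]
    exact ((differentiable_const _).sub ((differentiable_const _).mul
      ((differentiable_const _).mul h1))).add (differentiable_const _)
  · simp only [if_neg h3]
    exact ((differentiable_const _).sub ((differentiable_const _).mul
      ((differentiable_const _).mul h1))).add ((differentiable_const _).mul h2)

lemma Pg_ne_one {a b n : 𝓞 K} {c : Ideal (𝓞 K) → ℂ} {l : ℂ} {w : HeightOneSpectrum (𝓞 K)}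
    (hl : ‖l‖ = 1 ∨ l = 0)
    (hn : n ∉ w.asIdeal) (hcw : c w.asIdeal = (Ideal.absNorm w.asIdeal : ℂ) - pv a b w) :
    Pg n c l w 1 ≠ 0 := by
  classical
  have h1 : Pg n c l w 1 = 1 - l * (((Ideal.absNorm w.asIdeal : ℕ) - (pv a b w : ℕ) : ℂ) *
      ((Ideal.absNorm w.asIdeal : ℕ) : ℂ)⁻¹) + l ^ 2 *
      ((Ideal.absNorm w.asIdeal : ℕ) : ℂ)⁻¹ := by
    unfold Pg
    rw [if_neg hn, hcw, Complex.cpow_neg_one, show (1 - 2 * 1 : ℂ) = -1 by norm_num,
      Complex.cpow_neg_one]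
  rw [h1]
  exact P_ne' (two_le_norm w) (pv_le a b w) hl

lemma Pg_ne {a b n : 𝓞 K} {c : Ideal (𝓞 K) → ℂ} {l : ℂ} {w : HeightOneSpectrum (𝓞 K)}
    (hl' : ‖l‖ = 1 ∨ l = 0)
    (hn : n ∉ w.asIdeal) (hcw : c w.asIdeal = (Ideal.absNorm w.asIdeal : ℂ) - pv a b w) {s : ℂ}
    (hs : 2 < s.re) : Pg n c l w s ≠ 0 := by
  classical
  intro h0
  unfold Pg at h0
  rw [if_neg hn] at h0
  set q := Ideal.absNorm w.asIdeal with hq
  have hq2 : 2 ≤ q := two_le_norm w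
  have hqr : (2 : ℝ) ≤ q := by exact_mod_cast hq2
  have hq0 : (0 : ℝ) < q := by linarith
  have hl : ‖l‖ ≤ 1 := by
    rcases hl' with h | h <;> rw [h]
    simp
  have hcn : ‖c w.asIdeal‖ ≤ q := by
    rw [hcw]
    have e : ((q : ℂ) - (pv a b w : ℂ)) = (((q : ℝ) - (pv a b w : ℝ) : ℝ) : ℂ) := by push_cast; rfl
    rw [e, Complex.norm_real, Real.norm_eq_abs, abs_le]
    have h1 : (pv a b w : ℝ) ≤ 2 * q := by exact_mod_cast pv_le a b w
    have h2 : (0 : ℝ) ≤ pv a b w := Nat.cast_nonneg _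
    constructor <;> linarith
  have e1 : ‖(q : ℂ) ^ (-s)‖ ≤ (q : ℝ)⁻¹ * (q : ℝ)⁻¹ := by
    rw [Complex.norm_natCast_cpow_of_pos (by omega)]
    have h1 : (q : ℝ) ^ (-s).re ≤ (q : ℝ) ^ (-2 : ℝ) := by
      refine Real.rpow_le_rpow_of_exponent_le (by linarith) ?_
      rw [Complex.neg_re]
      linarith
    have h2 : (q : ℝ) ^ (-2 : ℝ) = (q : ℝ)⁻¹ * (q : ℝ)⁻¹ := by
      rw [show (-2 : ℝ) = -1 + -1 by norm_num, Real.rpow_add hq0, Real.rpow_neg_one]
    rw [← h2]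
    exact h1
  have e2 : ‖(q : ℂ) ^ (1 - 2 * s)‖ ≤ (q : ℝ)⁻¹ * (q : ℝ)⁻¹ := by
    rw [Complex.norm_natCast_cpow_of_pos (by omega)]
    have h1 : (q : ℝ) ^ (1 - 2 * s).re ≤ (q : ℝ) ^ (-2 : ℝ) := by
      refine Real.rpow_le_rpow_of_exponent_le (by linarith) ?_
      have : (1 - 2 * s).re = 1 - 2 * s.re := by simp
      rw [this]
      linarith
    have h2 : (q : ℝ) ^ (-2 : ℝ) = (q : ℝ)⁻¹ * (q : ℝ)⁻¹ := by
      rw [show (-2 : ℝ) = -1 + -1 by norm_num, Real.rpow_add hq0, Real.rpow_neg_one]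
    rw [← h2]
    exact h1
  have hinv : (q : ℝ)⁻¹ ≤ 1 / 2 := by
    rw [inv_le_comm₀ hq0 (by norm_num)]
    linarith
  have hinv0 : 0 < (q : ℝ)⁻¹ := inv_pos.2 hq0
  have h1 : (1 : ℂ) = l * (c w.asIdeal * (q : ℂ) ^ (-s)) -
      l ^ 2 * (q : ℂ) ^ (1 - 2 * s) := by linear_combination h0
  have h2 : (1 : ℝ) ≤ ‖l‖ * (‖c w.asIdeal‖ * ‖(q : ℂ) ^ (-s)‖) +
      ‖l‖ ^ 2 * ‖(q : ℂ) ^ (1 - 2 * s)‖ := by
    calc (1 : ℝ) = ‖(1 : ℂ)‖ := by simp
      _ = ‖l * (c w.asIdeal * (q : ℂ) ^ (-s)) - l ^ 2 * (q : ℂ) ^ (1 - 2 * s)‖ := by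
          rw [← h1]
      _ ≤ _ := by
          refine (norm_sub_le _ _).trans ?_
          rw [norm_mul, norm_mul, norm_mul, norm_pow]
  have h3 : ‖l‖ * (‖c w.asIdeal‖ * ‖(q : ℂ) ^ (-s)‖) ≤ 1 * (q * ((q : ℝ)⁻¹ * (q : ℝ)⁻¹)) := by
    refine mul_le_mul hl (mul_le_mul hcn e1 (norm_nonneg _) hq0.le) (by positivity) (by norm_num)
  have h4 : ‖l‖ ^ 2 * ‖(q : ℂ) ^ (1 - 2 * s)‖ ≤ 1 ^ 2 * ((q : ℝ)⁻¹ * (q : ℝ)⁻¹) := by
    refine mul_le_mul (pow_le_pow_left₀ (norm_nonneg _) hl 2) e2 (norm_nonneg _) (by norm_num)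
  have h5 : (q : ℝ) * ((q : ℝ)⁻¹ * (q : ℝ)⁻¹) = (q : ℝ)⁻¹ := by
    rw [← mul_assoc, mul_inv_cancel₀ hq0.ne', one_mul]
  rw [h5, one_mul] at h3
  rw [one_pow, one_mul] at h4
  nlinarith

section fac

variable {p N : ℕ} {n : 𝓞 K} {c : Ideal (𝓞 K) → ℂ} {A : ℕ → ℂ}

lemma Pg_split (hp : p.Prime) {w : HeightOneSpectrum (𝓞 K)} (hpw : (p : 𝓞 K) ∈ w.asIdeal)
    (hn : n = (N : 𝓞 K)) (hN : Ideal.absNorm w.asIdeal = p) (hc : c w.asIdeal = A p) {s α β : ℂ}
    (h1 : α + β = A p * (p : ℂ) ^ (-s))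
    (h2 : α * β = if p ∣ N then 0 else (p : ℂ) ^ (1 - 2 * s)) (l : ℂ) :
    Pg n c l w s = (1 - α * l) * (1 - β * l) := by
  classical
  unfold Pg
  rw [hN, hc]
  have h3 : (if n ∈ w.asIdeal then (0 : ℂ) else (p : ℂ) ^ (1 - 2 * s)) = α * β := by
    rw [h2]
    by_cases h4 : p ∣ N
    · rw [if_pos h4, if_pos ((mem_level hp hpw hn).2 h4)]
    · rw [if_neg h4, if_neg fun h5 => h4 ((mem_level hp hpw hn).1 h5)]
  rw [h3, ← h1]
  ring

lemma Pg_inert (hp : p.Prime) {w : HeightOneSpectrum (𝓞 K)} (hpw : (p : 𝓞 K) ∈ w.asIdeal)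
    (hn : n = (N : 𝓞 K)) (hN : Ideal.absNorm w.asIdeal = p ^ 2)
    (hc : c w.asIdeal = A p ^ 2 - (if p ∣ N then 0 else 2 * (p : ℂ))) {s α β : ℂ}
    (h1 : α + β = A p * (p : ℂ) ^ (-s))
    (h2 : α * β = if p ∣ N then 0 else (p : ℂ) ^ (1 - 2 * s)) (l : ℂ) :
    Pg n c l w s = (1 - α ^ 2 * l) * (1 - β ^ 2 * l) := by
  classical
  unfold Pg
  have e1 : ((p ^ 2 : ℕ) : ℂ) ^ (-s) = ((p : ℂ) ^ (-s)) ^ 2 := by
    rw [pow_two p, Nat.cast_mul, Complex.natCast_mul_natCast_cpow, pow_two]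
  have e2 : ((p ^ 2 : ℕ) : ℂ) ^ (1 - 2 * s) = ((p : ℂ) ^ (1 - 2 * s)) ^ 2 := by
    rw [pow_two p, Nat.cast_mul, Complex.natCast_mul_natCast_cpow, pow_two]
  rw [hN, hc, e1, e2]
  have h3 : (if n ∈ w.asIdeal then (0 : ℂ) else ((p : ℂ) ^ (1 - 2 * s)) ^ 2) = (α * β) ^ 2 := by
    rw [h2]
    by_cases h4 : p ∣ N
    · rw [if_pos h4, if_pos ((mem_level hp hpw hn).2 h4)]
      ring
    · rw [if_neg h4, if_neg fun h5 => h4 ((mem_level hp hpw hn).1 h5)]
  have h4 : (A p ^ 2 - (if p ∣ N then 0 else 2 * (p : ℂ))) * ((p : ℂ) ^ (-s)) ^ 2 =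
      α ^ 2 + β ^ 2 := by
    have h5 : (if p ∣ N then 0 else 2 * (p : ℂ)) * ((p : ℂ) ^ (-s)) ^ 2 = 2 * (α * β) := by
      rw [h2]
      by_cases h4 : p ∣ N
      · rw [if_pos h4, if_pos h4]
        ring
      · rw [if_neg h4, if_neg h4, cpow_quad hp]
        ring
    rw [sub_mul, h5]
    linear_combination -(α + β + A p * (p : ℂ) ^ (-s)) * h1
  rw [h3, h4]
  ring

end fac

section single

variable {p : ℕ} {v : HeightOneSpectrum (𝓞 F)}

/-- the Frobenius automorphism at an unramified place -/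
theorem frob_single' (h : IQ K σ δ) (hp : p.Prime) (hpv : (p : 𝓞 F) ∈ v.asIdeal)
    (hr : (p : 𝓞 K) ∉ (low (K := K) v).asIdeal ^ 2)
    (hu : ∀ t : F ≃ₐ[K] F, (∀ x : 𝓞 F, t • x - x ∈ v.asIdeal) → t = 1)
    {s : F ≃ₐ[ℚ] F} (hs : s ∈ FrobSet v) : FrobSet v = {s} := by
  apply Set.eq_singleton_iff_unique_mem.2
  refine ⟨hs, fun s' hs' => ?_⟩
  have h1 : Fx K (s' * s⁻¹) := by
    obtain ⟨p', hp', hpw', hN⟩ := nv_cases h (low (K := K) v)
    obtain rfl := uniq_over hp' hp hpw' (mem_low_nat.2 hpv)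
    rcases hN with hN | hN
    · exact (frob_split h hp hpv hr hN hs').mul (frob_split h hp hpv hr hN hs).inv
    · exact Cx.mul h (frob_inert h hp hpv hN hs') (Cx.inv h (frob_inert h hp hpv hN hs))
  obtain ⟨t, ht⟩ := range_fix h1
  have h2 : ∀ x : 𝓞 F, t • x - x ∈ v.asIdeal := by
    intro x
    have h5 := IsArithFrobAt.mul_inv_mem_inertia (R := ℤ) hs' hs x
    rw [← ht] at h5
    exact h5
  rw [hu t h2, map_one] at ht
  exact mul_inv_eq_one.1 ht.symm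

end single

section main

variable {p N : ℕ} {n : 𝓞 K} {c : Ideal (𝓞 K) → ℂ} {A : ℕ → ℂ}
  {ρg ρh : (F ≃ₐ[ℚ] F) →* GL (Fin 2) ℂ} {ρ : (F ≃ₐ[ℚ] F) →* GL (Fin 2 × Fin 2) ℂ}
  {b b' : Module.Basis (Fin 2) ℂ (Fin 2 → ℂ)} {χ μ : Fin 2 → ((F ≃ₐ[K] F) →* ℂ)}

/-- the Euler factor at an unramified prime -/
theorem eul_unram' (h : IQ K σ δ) [IsGalois ℚ F]
    (hg : ∀ s : F ≃ₐ[ℚ] F, ¬ Fx K s → (cM (ρg s)).trace = 0)
    (hρ : ∀ s α, (1 - α • cM (ρ s)).det = kp (cM (ρg s)).trace (cM (ρg s)).det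
      (cM (ρh s)).trace (cM (ρh s)).det α)
    (hb : ∀ (t : F ≃ₐ[K] F) i, Eig (b i) (cM (ρg (inc K F t))) (χ i t))
    (hb' : ∀ (t : F ≃ₐ[K] F) i, Eig (b' i) (cM (ρh (inc K F t))) (μ i t))
    (l : Fin 2 → HeightOneSpectrum (𝓞 K) → ℂ) (hp : p.Prime) {v : HeightOneSpectrum (𝓞 F)}
    (hpv : (p : 𝓞 F) ∈ v.asIdeal)
    (hr : ∀ w : HeightOneSpectrum (𝓞 K), (p : 𝓞 K) ∈ w.asIdeal → (p : 𝓞 K) ∉ w.asIdeal ^ 2)
    (hu : ∀ v : HeightOneSpectrum (𝓞 F), (p : 𝓞 F) ∈ v.asIdeal → ∀ t : F ≃ₐ[K] F,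
      (∀ x : 𝓞 F, t • x - x ∈ v.asIdeal) → t = 1)
    (hfr : ∀ v : HeightOneSpectrum (𝓞 F), (p : 𝓞 F) ∈ v.asIdeal → ∀ t : F ≃ₐ[K] F,
      (∀ x : 𝓞 F, t • x - x ^ Ideal.absNorm (low (K := K) v).asIdeal ∈ v.asIdeal) →
      ∀ i, l i (low (K := K) v) = χ 0 t * μ i t)
    (hn : n = (N : 𝓞 K))
    (hc1 : ∀ w : HeightOneSpectrum (𝓞 K), (p : 𝓞 K) ∈ w.asIdeal → Ideal.absNorm w.asIdeal = p →
      c w.asIdeal = A p)
    (hc2 : ∀ w : HeightOneSpectrum (𝓞 K), (p : 𝓞 K) ∈ w.asIdeal →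
      Ideal.absNorm w.asIdeal = p ^ 2 → c w.asIdeal = A p ^ 2 - (if p ∣ N then 0 else 2 * (p : ℂ)))
    (s : ℂ) :
    eulQ A N ρ v s p = (∏ w ∈ Wp K p, ∏ i, Pg n c (l i w) w s)⁻¹ := by
  classical
  obtain ⟨f, hf⟩ := frob_nonempty v
  have hsing : ∀ v : HeightOneSpectrum (𝓞 F), (p : 𝓞 F) ∈ v.asIdeal → ∀ {s : F ≃ₐ[ℚ] F},
      s ∈ FrobSet v → FrobSet v = {s} := by
    intro v hpv s hs
    exact frob_single' h hp hpv (hr _ (mem_low_nat.2 hpv)) (hu v hpv) hs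
  obtain ⟨α, β, hα, hβ⟩ := exists_ab (A p * (p : ℂ) ^ (-s))
    (if p ∣ N then 0 else (p : ℂ) ^ (1 - 2 * s))
  set w := low (K := K) v with hw
  have hpw : (p : 𝓞 K) ∈ w.asIdeal := mem_low_nat.2 hpv
  unfold eulQ
  congr 1
  rw [frobM_single ρ (hsing v hpv hf), ← hα, ← hβ, quad_fac, hρ, hρ]
  obtain ⟨p', hp', hpw', hN⟩ := nv_cases h w
  obtain rfl := uniq_over hp' hp hpw' hpw
  rcases hN with hN | hN
  · -- split
    obtain ⟨t, ht⟩ := range_fix (frob_split h hp hpv (hr w hpw) hN hf)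
    obtain ⟨e1, e2⟩ := eig_two (hb t)
    obtain ⟨e3, e4⟩ := eig_two (hb' t)
    have hft : ∀ x : 𝓞 F, t • x - x ^ Ideal.absNorm w.asIdeal ∈ v.asIdeal := by
      intro x
      rw [hN]
      have h1 := (frob_iff hp hpv f).1 hf x
      rw [← ht] at h1
      exact h1
    -- the conjugate
    obtain ⟨g, hg'⟩ := exists_cx (F := F) h
    set v' := cv g v with hv'
    have hpv' : ((p' : ℕ) : 𝓞 F) ∈ v'.asIdeal := by
      rw [mem_cv]
      have : g⁻¹ • ((p' : ℕ) : 𝓞 F) = ((p' : ℕ) : 𝓞 F) := by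
        apply RingOfIntegers.ext
        show g⁻¹ (((p' : ℕ) : 𝓞 F) : F) = _
        simp
      rw [this]
      exact hpv
    have hw' : low (K := K) v' = tv h w := low_cv h hg' v
    have hN' : Ideal.absNorm (tv h w).asIdeal = p' := by
      obtain ⟨p1, hp1, hpw1, hN1⟩ := nv_cases h (tv h w)
      obtain rfl := uniq_over hp1 hp hpw1 (mem_tv_nat h hpw)
      rcases hN1 with hN1 | hN1
      · exact hN1
      · exfalso
        have h1 := inert_all h hp (mem_tv_nat h hpw) hN1 hpw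
        exact split_ne h hp hpw (hr w hpw) hN h1.symm
    have hf' : g * f * g⁻¹ ∈ FrobSet v' := frob_conj rfl hf
    obtain ⟨t', ht'⟩ := range_fix (frob_split h hp hpv' (by rw [hw']; exact hr _ (mem_tv_nat h hpw))
      (by rw [hw']; exact hN') hf')
    have hft' : ∀ x : 𝓞 F, t' • x - x ^ Ideal.absNorm (low (K := K) v').asIdeal ∈ v'.asIdeal := by
      intro x
      rw [hw', hN']
      have h1 := (frob_iff hp hpv' _).1 hf' x
      rw [← ht'] at h1
      exact h1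
    have hconj : cM (ρg g) * cM (ρg (inc K F t)) = cM (ρg (inc K F t')) * cM (ρg g) := by
      rw [ht, ht', ← cM_mul, ← cM_mul, ← map_mul, ← map_mul]
      congr 2
      group
    have hconj' : cM (ρh (inc K F t')) = cM (ρh g) * cM (ρh (inc K F t)) * cM (ρh g⁻¹) := by
      rw [ht, ht', ← cM_mul, ← cM_mul, ← map_mul, ← map_mul]
    have hχ : χ 0 t' = χ 1 t := by
      refine chi_conj (fun t => cM (ρg (inc K F t))) (fun i t => χ i t) (fun t i => hb t i)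
        (fun i => map_one _) (cM (ρg g)) ?_ (fun t => ?_) hconj
      · have h1 := cM_inv ρg g
        have h2 := congrArg Matrix.det h1
        rw [Matrix.det_mul, Matrix.det_one] at h2
        exact left_ne_zero_of_mul_eq_one h2
      · show (cM (ρg (inc K F t)) * cM (ρg g)).trace = 0
        rw [← cM_mul, ← map_mul]
        exact hg _ fun h1 => not_both h h1 (Fx.mul_cx h (fx_inc t) hg')
    obtain ⟨e5, e6⟩ := eig_two (hb' t')
    have e7 : (cM (ρh (inc K F t'))).trace = (cM (ρh (inc K F t))).trace := by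
      rw [hconj', Matrix.trace_mul_comm, ← Matrix.mul_assoc, cM_inv', Matrix.one_mul]
    have e8 : (cM (ρh (inc K F t'))).det = (cM (ρh (inc K F t))).det := by
      rw [hconj', Matrix.det_mul, Matrix.det_mul]
      have h1 := congrArg Matrix.det (cM_inv ρh g)
      rw [Matrix.det_mul, Matrix.det_one] at h1
      linear_combination (cM (ρh (inc K F t))).det * h1
    rw [e5, e3] at e7
    rw [e6, e4] at e8
    -- the symbols
    have hl : ∀ i, l i w = χ 0 t * μ i t := hfr v hpv t hft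
    have hl' : ∀ i, l i (tv h w) = χ 0 t' * μ i t' := fun i => by
      rw [← hw']
      exact hfr v' hpv' t' hft' i
    -- the places
    have hWp : Wp K p' = {w, tv h w} := by
      ext w'
      rw [mem_Wp hp, Finset.mem_insert, Finset.mem_singleton]
      constructor
      · exact fun h1 => split_all h hN h1
      · rintro (rfl | rfl)
        · exact hpw
        · exact mem_tv_nat h hpw
    rw [hWp, Finset.prod_pair (split_ne h hp hpw (hr w hpw) hN).symm, Fin.prod_univ_two,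
      Fin.prod_univ_two, Pg_split hp hpw hn hN (hc1 w hpw hN) hα hβ,
      Pg_split hp hpw hn hN (hc1 w hpw hN) hα hβ,
      Pg_split hp (mem_tv_nat h hpw) hn hN' (hc1 _ (mem_tv_nat h hpw) hN') hα hβ,
      Pg_split hp (mem_tv_nat h hpw) hn hN' (hc1 _ (mem_tv_nat h hpw) hN') hα hβ, hl, hl, hl', hl',
      ← ht, e1, e2, e3, e4, kp_split, kp_split, hχ]
    have key : ∀ x : ℂ, (1 - x * (χ 1 t * μ 0 t')) * (1 - x * (χ 1 t * μ 1 t')) =
        (1 - x * (χ 1 t * μ 0 t)) * (1 - x * (χ 1 t * μ 1 t)) := by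
      intro x
      linear_combination -(x * χ 1 t) * e7 + (x * χ 1 t) ^ 2 * e8
    calc _ = ((1 - α * (χ 0 t * μ 0 t)) * (1 - α * (χ 0 t * μ 1 t)) *
          ((1 - β * (χ 0 t * μ 0 t)) * (1 - β * (χ 0 t * μ 1 t)))) *
          (((1 - α * (χ 1 t * μ 0 t)) * (1 - α * (χ 1 t * μ 1 t))) *
          ((1 - β * (χ 1 t * μ 0 t)) * (1 - β * (χ 1 t * μ 1 t)))) := by ring
      _ = _ := by
          rw [← key α, ← key β]
          ring
  · -- inert
    have hcx := frob_inert h hp hpv hN hf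
    obtain ⟨t, ht⟩ := range_fix (Cx.mul h hcx hcx)
    obtain ⟨e3, e4⟩ := eig_two (hb' t)
    have hft : ∀ x : 𝓞 F, t • x - x ^ Ideal.absNorm w.asIdeal ∈ v.asIdeal := by
      intro x
      rw [hN]
      have h1 := frob_sq hp hpv hf x
      rw [← ht] at h1
      exact h1
    have htr : (cM (ρg f)).trace = 0 := hg f fun h1 => not_both h h1 hcx
    have hχ : χ 0 t = -(cM (ρg f)).det := by
      have h1 := hb t 0
      rw [ht, map_mul, cM_mul, sq_neg_det htr] at h1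
      unfold Eig at h1
      rw [Matrix.smul_mulVec, Matrix.one_mulVec] at h1
      have h2 : (-(cM (ρg f)).det - χ 0 t) • b 0 = 0 := by
        rw [sub_smul, h1, sub_self]
      have h3 := (smul_eq_zero.1 h2).resolve_right (b.ne_zero 0)
      linear_combination -h3
    have hm1 : μ 0 t + μ 1 t = (cM (ρh f)).trace ^ 2 - 2 * (cM (ρh f)).det := by
      rw [← e3, ht, map_mul, cM_mul, tr_sq]
    have hm2 : μ 0 t * μ 1 t = (cM (ρh f)).det ^ 2 := by
      rw [← e4, ht, map_mul, cM_mul, Matrix.det_mul, pow_two]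
    have hl : ∀ i, l i w = χ 0 t * μ i t := hfr v hpv t hft
    have hWp : Wp K p' = {w} := by
      ext w'
      rw [mem_Wp hp, Finset.mem_singleton]
      constructor
      · exact fun h1 => inert_all h hp hpw hN h1
      · rintro rfl
        exact hpw
    rw [hWp, Finset.prod_singleton, Fin.prod_univ_two, Pg_inert hp hpw hn hN (hc2 w hpw hN) hα hβ,
      Pg_inert hp hpw hn hN (hc2 w hpw hN) hα hβ, hl, hl, htr, kp_inert hχ hm1 hm2,
      kp_inert hχ hm1 hm2]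
    ring

end main

end Pool.Agent.K4H15.BY
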